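import Pool.Agent.Y332.MD.Main
import Pool.Agent.TH937.FF4.Qlt

/-!
# Supports of smooth isotropic functions along a horizontal base line

`g` is of class `C³`, symmetric, even, and convex in the second variable on `[-s, s]`.  For `b ≥ 0`
the function `T(s, v)` is the tangent at `v = b` of `g(s, ·)` for `s ≥ b` and is continued
bi-affinely for `s ≤ b`.
-/

set_option autoImplicit false

namespace Pool.Agent.Q63.Mor

open Set Filter Topology
open Pool.Agent.Y332.MD
open Pool.Agent.TH937.ZC (QL RCc)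

/-- the hypotheses -/
structure Hy (g : ℝ → ℝ → ℝ) (b : ℝ) : Prop where
  cd : ContDiff ℝ 3 (un g)
  sym : ∀ x y, g x y = g y x
  odd : ∀ x y, g (-x) (-y) = g x y
  cs : ∀ v, ConvexOn ℝ (Ici |v|) (fun s => g s v)
  cv : ∀ s, 0 ≤ s → ConvexOn ℝ (Icc (-s) s) (fun v => g s v)
  b0 : 0 ≤ b
  H1 : ∀ s v, 0 < s → b ≤ s → |v| ≤ s → 0 ≤ d1 (d1 g) s b + (v - b) * d1 (d1 (d2 g)) s b
  H2 : ∀ t, 0 < t → t ≤ b → 0 ≤ d1 (d1 g) t t - 2 * t * d1 (d1 (d2 g)) t t

/-- the tangent of a convex function -/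
theorem tan_le {S : Set ℝ} {f : ℝ → ℝ} (hf : ConvexOn ℝ S f) {x y f' : ℝ} (hx : x ∈ S)
    (hy : y ∈ S) (h : HasDerivAt f f' x) : f x + f' * (y - x) ≤ f y := by
  rcases lt_trichotomy x y with h1 | h1 | h1
  · have h2 := hf.le_slope_of_hasDerivAt hx hy h1 h
    rw [slope_def_field, le_div_iff₀ (sub_pos.2 h1)] at h2
    linarith
  · subst h1; simp
  · have h2 := hf.slope_le_of_hasDerivAt hy hx h1 h
    rw [slope_def_field, div_le_iff₀ (sub_pos.2 h1)] at h2
    linarith

/-- monotonicity of the derivative of a convex function -/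
theorem der_mono {S : Set ℝ} {f : ℝ → ℝ} (hf : ConvexOn ℝ S f) {x y f' f'' : ℝ} (hx : x ∈ S)
    (hy : y ∈ S) (hxy : x ≤ y) (h : HasDerivAt f f' x) (h' : HasDerivAt f f'' y) : f' ≤ f'' := by
  rcases hxy.eq_or_lt with h1 | h1
  · subst h1; exact (h.unique h').le
  · exact (hf.le_slope_of_hasDerivAt hx hy h1 h).trans (hf.slope_le_of_hasDerivAt hx hy h1 h')

/-- a function with nonnegative derivative on `[x, y]` -/
theorem mono_of {f f' : ℝ → ℝ} {x y : ℝ} (hxy : x ≤ y) (h : ∀ t, HasDerivAt f (f' t) t)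
    (h0 : ∀ t, x < t → t < y → 0 ≤ f' t) : f x ≤ f y := by
  have hm : MonotoneOn f (Icc x y) := by
    refine monotoneOn_of_deriv_nonneg (convex_Icc _ _)
      (fun t _ => (h t).continuousAt.continuousWithinAt)
      (fun t _ => (h t).differentiableAt.differentiableWithinAt) ?_
    intro t ht
    rw [interior_Icc] at ht
    rw [(h t).deriv]
    exact h0 t ht.1 ht.2
  exact hm (left_mem_Icc.2 hxy) (right_mem_Icc.2 hxy) hxy

/-- the derivative along the diagonal -/
theorem has_diag {g : ℝ → ℝ → ℝ} (h : Differentiable ℝ (un g)) (t : ℝ) :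
    HasDerivAt (fun t => g t t) (d1 g t t + d2 g t t) t := by
  have h0 : HasDerivAt (fun t : ℝ => ((t, t) : ℝ × ℝ)) ((1, 1) : ℝ × ℝ) t :=
    (hasDerivAt_id t).prodMk (hasDerivAt_id t)
  have h1 := HasFDerivAt.comp_hasDerivAt (f := fun t : ℝ => ((t, t) : ℝ × ℝ)) t
    (h (t, t)).hasFDerivAt h0
  have e : ((1, 1) : ℝ × ℝ) = ((1, 0) : ℝ × ℝ) + ((0, 1) : ℝ × ℝ) := by
    ext1 <;> simp
  have e2 : fderiv ℝ (un g) (t, t) (1, 1) = d1 g t t + d2 g t t := by
    rw [e, map_add, d1_eq h, d2_eq h]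
  rw [e2] at h1
  exact h1

namespace Hy

variable {g : ℝ → ℝ → ℝ} {b : ℝ} (D : Hy g b)

include D

theorem hd : Differentiable ℝ (un g) := D.cd.differentiable (by norm_num)
theorem c1 : ContDiff ℝ 2 (un (d1 g)) := cd1 (n := 2) D.cd
theorem c2 : ContDiff ℝ 2 (un (d2 g)) := cd2 (n := 2) D.cd
theorem c12 : ContDiff ℝ 1 (un (d1 (d2 g))) := cd1 (n := 1) D.c2
theorem hd1 : Differentiable ℝ (un (d1 g)) := D.c1.differentiable (by norm_num)
theorem hd2 : Differentiable ℝ (un (d2 g)) := D.c2.differentiable (by norm_num)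
theorem hd12 : Differentiable ℝ (un (d1 (d2 g))) := D.c12.differentiable (by norm_num)

theorem sw (x y : ℝ) : d2 (d1 g) x y = d1 (d2 g) x y := swap12 (D.cd.of_le (by norm_num)) x y

theorem s1 (x y : ℝ) : d1 g x y = d2 g y x := by
  unfold d1 d2
  congr 1
  funext t
  exact D.sym t y

theorem sK (x y : ℝ) : d1 (d2 g) x y = d1 (d2 g) y x := by
  rw [← D.sw y x]
  show deriv (fun t => d2 g t y) x = deriv (fun t => d1 g y t) x
  congr 1
  funext t
  exact (D.s1 y t).symm

theorem sT (x y : ℝ) : d2 (d1 (d2 g)) x y = d1 (d1 (d2 g)) y x := by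
  show deriv (fun t => d1 (d2 g) x t) y = deriv (fun t => d1 (d2 g) t x) y
  congr 1
  funext t
  exact D.sK x t

theorem s2 (x y : ℝ) : d2 (d2 g) x y = d1 (d1 g) y x := by
  show deriv (fun t => d2 g x t) y = deriv (fun t => d1 g t x) y
  congr 1
  funext t
  exact (D.s1 t x).symm

theorem z0 : d1 g 0 0 = 0 := by
  have h : (fun t => g t 0) = fun t => g (-t) 0 := by
    funext t
    have := D.odd t 0
    rw [neg_zero] at this
    exact this.symm
  have h2 : d1 g 0 0 = -d1 g 0 0 := by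
    unfold d1
    conv_lhs => rw [h]
    rw [deriv_comp_neg (fun t => g t 0) 0, neg_zero]
  linarith

/-- `g_xx ≥ 0` on the diagonal -/
theorem c0 {t : ℝ} (ht : 0 ≤ t) : 0 ≤ d1 (d1 g) t t := by
  have h1 : HasDerivAt (fun y : ℝ => d1 g (t + y) t) (d1 (d1 g) t t) 0 := by
    have := (has1 D.hd1 t t)
    have h2 : HasDerivAt (fun y : ℝ => t + y) 1 0 := (hasDerivAt_id (0 : ℝ)).const_add t
    have h3 : HasDerivAt (fun x => d1 g x t) (d1 (d1 g) t t) (t + 0) := by rw [add_zero]; exact this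
    have h4 := h3.comp (0 : ℝ) h2
    rw [mul_one] at h4
    exact h4
  refine nonneg_of_min h1 ?_
  intro y hy
  show d1 g (t + 0) t ≤ d1 g (t + y) t
  rw [add_zero]
  have hc := D.cs t
  rw [abs_of_nonneg ht] at hc
  exact der_mono hc (mem_Ici.2 le_rfl) (mem_Ici.2 (by linarith)) (by linarith)
    (has1 D.hd t t) (has1 D.hd (t + y) t)

/-- the derivative of `g_y` on the diagonal -/
theorem dy (t : ℝ) : HasDerivAt (fun t => d2 g t t) (d1 (d2 g) t t + d1 (d1 g) t t) t := by
  have := has_diag D.hd2 t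
  rw [D.s2] at this
  exact this

theorem dK (t : ℝ) : HasDerivAt (fun t => d1 (d2 g) t t) (2 * d1 (d1 (d2 g)) t t) t := by
  have := has_diag D.hd12 t
  rw [D.sT] at this
  convert this using 1
  ring

theorem th {s : ℝ} (hs : 0 ≤ s) (hsb : s ≤ b) : 0 ≤ d1 g s s - s * d1 (d2 g) s s := by
  have h : ∀ t, HasDerivAt (fun t => d1 g t t - t * d1 (d2 g) t t)
      (d1 (d1 g) t t - 2 * t * d1 (d1 (d2 g)) t t) t := by
    intro t
    have h1 := has_diag D.hd1 t
    rw [D.sw] at h1
    have h2 := (hasDerivAt_id t).mul (D.dK t)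
    have h3 := h1.sub h2
    refine h3.congr_deriv ?_
    simp only [id]
    ring
  have := mono_of hs h (fun t h1 h2 => D.H2 t h1 (by linarith))
  simpa [D.z0] using this

/-! ### the coefficients -/

end Hy

/-- the coefficients on the right of `b` -/
noncomputable def A0 (g : ℝ → ℝ → ℝ) (b s : ℝ) : ℝ := g s b - b * d2 g s b
noncomputable def A1 (g : ℝ → ℝ → ℝ) (b s : ℝ) : ℝ := d1 g s b - b * d1 (d2 g) s b
noncomputable def C0 (g : ℝ → ℝ → ℝ) (b s : ℝ) : ℝ := d2 g s b
noncomputable def C1 (g : ℝ → ℝ → ℝ) (b s : ℝ) : ℝ := d1 (d2 g) s b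

/-- the coefficients, with the affine continuation -/
noncomputable def AA (g : ℝ → ℝ → ℝ) (b s : ℝ) : ℝ :=
  A0 g b (max b s) + A1 g b (max b s) * (s - max b s)
noncomputable def CC (g : ℝ → ℝ → ℝ) (b s : ℝ) : ℝ :=
  C0 g b (max b s) + C1 g b (max b s) * (s - max b s)

/-- a function continued by its tangent at `b` -/
theorem cont_der {f f' : ℝ → ℝ} {b : ℝ} (h : ∀ t, HasDerivAt f (f' t) t) (t : ℝ) :
    HasDerivAt (fun s => f (max b s) + f' (max b s) * (s - max b s)) (f' (max b t)) t := by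
  have aff : HasDerivAt (fun s : ℝ => f b + f' b * (s - b)) (f' b) t := by
    have h := (((hasDerivAt_id t).sub_const b).const_mul (f' b)).const_add (f b)
    rw [mul_one] at h
    exact h
  rcases lt_trichotomy t b with h1 | h1 | h1
  · rw [max_eq_left h1.le]
    refine aff.congr_of_eventuallyEq ?_
    filter_upwards [Iio_mem_nhds h1] with x hx
    rw [max_eq_left (le_of_lt hx)]
  · subst h1
    rw [max_self]
    have e1 : HasDerivWithinAt (fun s => f (max t s) + f' (max t s) * (s - max t s)) (f' t)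
        (Iic t) t :=
      aff.hasDerivWithinAt.congr (fun x hx => by rw [max_eq_left (mem_Iic.1 hx)])
        (by rw [max_self])
    have e2 : HasDerivWithinAt (fun s => f (max t s) + f' (max t s) * (s - max t s)) (f' t)
        (Ici t) t :=
      (h t).hasDerivWithinAt.congr (fun x hx => by
        rw [max_eq_right (mem_Ici.1 hx), sub_self, mul_zero, add_zero])
        (by rw [max_self, sub_self, mul_zero, add_zero])
    have e3 := e1.union e2
    rw [Iic_union_Ici, hasDerivWithinAt_univ] at e3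
    exact e3
  · rw [max_eq_right h1.le]
    refine (h t).congr_of_eventuallyEq ?_
    filter_upwards [Ioi_mem_nhds h1] with x hx
    rw [max_eq_right (le_of_lt hx), sub_self, mul_zero, add_zero]

namespace Hy

variable {g : ℝ → ℝ → ℝ} {b : ℝ} (D : Hy g b)

include D

theorem dA0 (t : ℝ) : HasDerivAt (A0 g b) (A1 g b t) t :=
  (has1 D.hd t b).sub ((has1 D.hd2 t b).const_mul b)

theorem dC0 (t : ℝ) : HasDerivAt (C0 g b) (C1 g b t) t := has1 D.hd2 t b

theorem dA1 (t : ℝ) : HasDerivAt (A1 g b) (d1 (d1 g) t b - b * d1 (d1 (d2 g)) t b) t :=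
  (has1 D.hd1 t b).sub ((has1 D.hd12 t b).const_mul b)

theorem dC1 (t : ℝ) : HasDerivAt (C1 g b) (d1 (d1 (d2 g)) t b) t := has1 D.hd12 t b

/-- the derivative of `T(·, τ)` -/
theorem dT (τ t : ℝ) : HasDerivAt (fun t => AA g b t + CC g b t * τ)
    (A1 g b (max b t) + C1 g b (max b t) * τ) t :=
  (cont_der D.dA0 t).add ((cont_der D.dC0 t).mul_const τ)

/-- it is monotone -/
theorem mono (τ : ℝ) {t t' : ℝ} (h1 : |τ| ≤ t) (h2 : t ≤ t') :
    A1 g b (max b t) + C1 g b (max b t) * τ ≤ A1 g b (max b t') + C1 g b (max b t') * τ := by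
  have hd : ∀ s, HasDerivAt (fun s => A1 g b s + C1 g b s * τ)
      (d1 (d1 g) s b - b * d1 (d1 (d2 g)) s b + d1 (d1 (d2 g)) s b * τ) s :=
    fun s => (D.dA1 s).add ((D.dC1 s).mul_const τ)
  refine mono_of (max_le_max le_rfl h2) hd ?_
  intro s hs _
  have h3 : b ≤ s := (le_max_left _ _).trans hs.le
  have h4 : |τ| ≤ s := h1.trans ((le_max_right _ _).trans hs.le)
  have h5 : 0 < s := D.b0.trans_lt (lt_of_le_of_lt (le_max_left _ _) hs)
  have := D.H1 s τ h5 h3 h4
  linarith

theorem conv (τ : ℝ) : ConvexOn ℝ (Ici |τ|) (fun t => AA g b t + CC g b t * τ) := by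
  refine MonotoneOn.convexOn_of_deriv (convex_Ici _)
    (fun t _ => (D.dT τ t).continuousAt.continuousWithinAt)
    (fun t _ => (D.dT τ t).differentiableAt.differentiableWithinAt) ?_
  intro t ht t' _ htt'
  rw [(D.dT τ t).deriv, (D.dT τ t').deriv]
  rw [interior_Ici, mem_Ioi] at ht
  exact D.mono τ ht.le htt'

theorem Pq {s : ℝ} (hs : b ≤ s) : 0 ≤ A1 g b s - C0 g b s + s * C1 g b s := by
  have hd : ∀ s, HasDerivAt (fun s => A1 g b s - C0 g b s + s * C1 g b s)
      (d1 (d1 g) s b - b * d1 (d1 (d2 g)) s b - C1 g b s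
        + (1 * C1 g b s + s * d1 (d1 (d2 g)) s b)) s :=
    fun s => ((D.dA1 s).sub (D.dC0 s)).add ((hasDerivAt_id s).mul (D.dC1 s))
  have := mono_of hs hd (fun t h1 _ => by
    have := D.H1 t t (D.b0.trans_lt h1) h1.le (abs_of_nonneg (D.b0.trans h1.le)).le
    linarith)
  refine le_trans (le_of_eq ?_) this
  simp only [A1, C0, C1]
  rw [D.s1 b b]
  ring

theorem Mq {s : ℝ} (hs : b ≤ s) : 0 ≤ A1 g b s + C0 g b s - s * C1 g b s := by
  have hd : ∀ s, HasDerivAt (fun s => A1 g b s + C0 g b s - s * C1 g b s)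
      (d1 (d1 g) s b - b * d1 (d1 (d2 g)) s b + C1 g b s
        - (1 * C1 g b s + s * d1 (d1 (d2 g)) s b)) s :=
    fun s => ((D.dA1 s).add (D.dC0 s)).sub ((hasDerivAt_id s).mul (D.dC1 s))
  have := mono_of hs hd (fun t h1 _ => by
    have := D.H1 t (-t) (D.b0.trans_lt h1) h1.le (by rw [abs_neg]; exact (abs_of_nonneg (D.b0.trans h1.le)).le)
    linarith)
  refine le_trans ?_ this
  have h2 := D.th D.b0 le_rfl
  simp only [A1, C0, C1]
  rw [← D.s1 b b]
  linarith

theorem exch {u t : ℝ} (hu : 0 ≤ u) (hut : u ≤ t) :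
    AA g b u + CC g b u * t ≤ AA g b t + CC g b t * u ∧
      AA g b u - CC g b u * t ≤ AA g b t - CC g b t * u := by
  have e : CC g b u = C0 g b (max b u) + C1 g b (max b u) * (u - max b u) := rfl
  have hut' : 0 ≤ t - u := sub_nonneg.2 hut
  have hp : b ≤ max b u := le_max_left _ _
  constructor
  · have h1 := tan_le (D.conv u) (x := u) (y := t) (mem_Ici.2 (abs_of_nonneg hu).le)
      (mem_Ici.2 (by rw [abs_of_nonneg hu]; exact hut)) (D.dT u u)
    have h2 := mul_nonneg (D.Pq hp) hut'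
    have h3 : CC g b u * (t - u) ≤
        (A1 g b (max b u) + C1 g b (max b u) * u) * (t - u) := by
      rw [e]
      nlinarith
    linarith
  · have h1 := tan_le (D.conv (-u)) (x := u) (y := t)
      (mem_Ici.2 (by rw [abs_neg, abs_of_nonneg hu]))
      (mem_Ici.2 (by rw [abs_neg, abs_of_nonneg hu]; exact hut)) (D.dT (-u) u)
    have h2 := mul_nonneg (D.Mq hp) hut'
    have h3 : -CC g b u * (t - u) ≤
        (A1 g b (max b u) + C1 g b (max b u) * (-u)) * (t - u) := by
      rw [e]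
      nlinarith
    linarith

/-- `g_y(s,s) ≤` the value for the continued function -/
theorem be {s : ℝ} (hs : 0 ≤ s) (hsb : s ≤ b) : d2 g s s ≤ CC g b s := by
  have e : CC g b s = d2 g b b + d1 (d2 g) b b * (s - b) := by
    rw [CC, max_eq_left hsb]; rfl
  have hd : ∀ t, HasDerivAt (fun t => d2 g t t - (t - s) * d1 (d2 g) t t)
      (d1 (d2 g) t t + d1 (d1 g) t t
        - (1 * d1 (d2 g) t t + (t - s) * (2 * d1 (d1 (d2 g)) t t))) t :=
    fun t => (D.dy t).sub (((hasDerivAt_id t).sub_const s).mul (D.dK t))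
  have := mono_of hsb hd (fun t h1 h2 => by
    have h3 := D.c0 (hs.trans h1.le)
    have h4 := D.H2 t (lt_of_le_of_lt hs h1) h2.le
    have h5 : 0 ≤ t - s := (sub_pos.2 h1).le
    rcases le_total 0 (d1 (d1 (d2 g)) t t) with h6 | h6
    · nlinarith
    · nlinarith)
  simp only [sub_self, zero_mul, sub_zero] at this
  rw [e]
  linarith

/-- the support on the diagonal -/
theorem ee {s : ℝ} (hs : 0 ≤ s) (hsb : s ≤ b) : AA g b s + CC g b s * s ≤ g s s := by
  have e : ∀ t, t ≤ b → AA g b t = A0 g b b + A1 g b b * (t - b) ∧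
      CC g b t = C0 g b b + C1 g b b * (t - b) := by
    intro t ht
    rw [AA, CC, max_eq_left ht]
    exact ⟨rfl, rfl⟩
  have hd : ∀ t, HasDerivAt (fun t => (A0 g b b + A1 g b b * (t - b))
      + (C0 g b b + C1 g b b * (t - b)) * t - g t t)
      (A1 g b b + (C1 g b b * t + (C0 g b b + C1 g b b * (t - b)) * 1)
        - (d1 g t t + d2 g t t)) t := by
    intro t
    have a1 : HasDerivAt (fun t : ℝ => A0 g b b + A1 g b b * (t - b)) (A1 g b b) t := by
      have h := (((hasDerivAt_id t).sub_const b).const_mul (A1 g b b)).const_add (A0 g b b)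
      rw [mul_one] at h
      exact h
    have a2 : HasDerivAt (fun t : ℝ => C0 g b b + C1 g b b * (t - b)) (C1 g b b) t := by
      have h := (((hasDerivAt_id t).sub_const b).const_mul (C1 g b b)).const_add (C0 g b b)
      rw [mul_one] at h
      exact h
    exact (a1.add (a2.mul (hasDerivAt_id t))).sub (has_diag D.hd t)
  have := mono_of hsb hd (fun t h1 h2 => by
    have h3 := D.be (hs.trans h1.le) h2.le
    rw [(e t h2.le).2] at h3
    simp only [A1, C0, C1] at h3 ⊢
    rw [D.s1 t t, D.s1 b b]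
    linarith)
  rw [(e s hsb).1, (e s hsb).2]
  simp only [sub_self, mul_zero, add_zero] at this
  have h5 : A0 g b b + C0 g b b * b - g b b = 0 := by
    simp only [A0, C0]; ring
  linarith

/-- the function is a support -/
theorem sup {s v : ℝ} (hv : |v| ≤ s) : AA g b s + CC g b s * v ≤ g s v := by
  have hs : 0 ≤ s := (abs_nonneg v).trans hv
  have hv' := abs_le.1 hv
  rcases le_total b s with h | h
  · have e : AA g b s + CC g b s * v = g s b + d2 g s b * (v - b) := by
      rw [AA, CC, max_eq_right h, A0, C0]; ring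
    rw [e]
    exact tan_le (D.cv s hs) ⟨by linarith [D.b0], h⟩ hv' (has2 D.hd s b)
  · have h1 := tan_le (D.cv s hs) (x := s) (y := v) ⟨by linarith, le_rfl⟩ hv' (has2 D.hd s s)
    have h2 := D.ee hs h
    have h3 := mul_le_mul_of_nonneg_right (D.be hs h) (sub_nonneg.2 hv'.2)
    nlinarith

theorem at_b {s : ℝ} (h : b ≤ s) : AA g b s + CC g b s * b = g s b := by
  rw [AA, CC, max_eq_right h, A0, C0]; ring

/-- quasiconvexity at the points with smaller singular value `b` -/
theorem ql {F0 : ℂ × ℂ} (hF : ‖F0.1‖ - ‖F0.2‖ = b) : QL (wi g) F0 := by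
  obtain ⟨hc, hq⟩ := Pool.Agent.TH937.FF4.ql_T D.conv (fun u t hu hut => D.exch hu hut) F0
  refine Pool.Agent.TH937.ZC.QL_support (cont_wi D.cd.continuous) ?_
  intro R ε _ hε
  refine ⟨_, hc, hq, ?_, ?_⟩
  · intro F _
    have n1 := norm_nonneg F.1
    have n2 := norm_nonneg F.2
    have := D.sup (s := ‖F.1‖ + ‖F.2‖) (v := ‖F.1‖ - ‖F.2‖) (abs_le.2 ⟨by linarith, by linarith⟩)
    unfold wi
    linarith
  · have n1 := norm_nonneg F0.1
    have n2 := norm_nonneg F0.2
    have := D.at_b (s := ‖F0.1‖ + ‖F0.2‖) (by linarith)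
    unfold wi
    rw [hF, this]
    linarith

end Hy

end Pool.Agent.Q63.Mor
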