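import Pool.Agent.TH937.ZC.Ql2

/-!
# The passage to matrices and open sets, at one matrix
-/

set_option autoImplicit false

namespace Pool.Agent.Q63.Mor

open MeasureTheory Set Filter Topology Metric
open Pool.Agent.W488.IW (V Idx gd box dz dzb)
open Pool.Agent.W360.MQ (cab)
open Pool.Agent.TH937.ZC

open Pool.Agent.W523.MQ.OM in
theorem QL_om_at {w : ℂ × ℂ → ℝ} (hw : Continuous w) (F₀ : Matrix (Fin 2) (Fin 2) ℝ)
    (hQ : QL w (cab F₀)) (Ω : Set (Fin 2 → ℝ)) (hΩ : IsOpen Ω) (hΩb : Bornology.IsBounded Ω)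
    (ϑ : (Fin 2 → ℝ) → (Fin 2 → ℝ)) (hϑ : ∃ K, LipschitzWith K ϑ) (h0 : ∀ x, x ∉ Ω → ϑ x = 0) :
    w (cab F₀) * (MeasureTheory.volume Ω).toReal ≤
        ∫ x in Ω, w (cab (F₀ + LinearMap.toMatrix'
          ((fderiv ℝ ϑ x : (Fin 2 → ℝ) →L[ℝ] (Fin 2 → ℝ)) :
            (Fin 2 → ℝ) →ₗ[ℝ] (Fin 2 → ℝ)))) := by
  obtain ⟨K, hK⟩ := hϑ
  -- the map on the complex plane
  have hfl : ∃ K', LipschitzWith K' (fo ϑ) :=
    ⟨_, (L.symm.lipschitz).comp (hK.comp L.lipschitz)⟩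
  have hfc : HasCompactSupport (fo ϑ) := by
    have hcK : IsCompact (L.symm '' (closure Ω)) :=
      (hΩb.isCompact_closure).image L.symm.continuous
    refine HasCompactSupport.intro hcK ?_
    intro z hz
    have : L z ∉ Ω := by
      intro hmem
      exact hz ⟨L z, subset_closure hmem, L.symm_apply_apply z⟩
    simp [fo, h0 _ this]
  have hpos := hQ (fo ϑ) hfl hfc
  -- the integrand
  set G : (Fin 2 → ℝ) → ℝ := fun x => w (T F₀ (fderiv ℝ ϑ x)) - w (cab F₀) with hG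
  have hGL : ∀ z : ℂ, w (cab F₀ + (dz (fo ϑ) z, dzb (fo ϑ) z)) - w (cab F₀) = G (L z) := by
    intro z
    simp only [hG, T]
    rw [cab_fderiv, cab_add]
  have hint : ∫ z : ℂ, G (L z) = ∫ x : Fin 2 → ℝ, G x :=
    Complex.volume_preserving_equiv_pi.integral_comp' G
  simp only [hGL] at hpos
  rw [hint] at hpos
  have hzero : ∀ᵐ x : Fin 2 → ℝ, x ∉ Ω → G x = 0 := by
    filter_upwards [Pool.Agent.W523.MQ.ZERO.main ϑ ⟨K, hK⟩] with x hx hxΩ
    have := hx (h0 x hxΩ)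
    simp [hG, T, this]
  rw [← setIntegral_eq_integral_of_ae_compl_eq_zero hzero] at hpos
  -- integrability
  have hbd : ∃ C, ∀ x, ‖w (T F₀ (fderiv ℝ ϑ x))‖ ≤ C := by
    have hc : IsCompact (Metric.closedBall (0 : (Fin 2 → ℝ) →L[ℝ] (Fin 2 → ℝ)) K) :=
      isCompact_closedBall _ _
    obtain ⟨C, hC⟩ := hc.exists_bound_of_continuousOn
      ((hw.comp (T_cont F₀)).continuousOn (s := Metric.closedBall 0 (K : ℝ)))
    refine ⟨C, fun x => hC _ ?_⟩
    rw [mem_closedBall_zero_iff]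
    exact norm_fderiv_le_of_lipschitz ℝ hK
  obtain ⟨C, hC⟩ := hbd
  have hmeas : Measurable (fun x => w (T F₀ (fderiv ℝ ϑ x))) :=
    (hw.comp (T_cont F₀)).measurable.comp (measurable_fderiv ℝ ϑ)
  have hfin : volume Ω < ⊤ := hΩb.measure_lt_top
  have hI1 : IntegrableOn (fun x => w (T F₀ (fderiv ℝ ϑ x))) Ω :=
    Measure.integrableOn_of_bounded hfin.ne hmeas.aestronglyMeasurable
      (Filter.Eventually.of_forall hC)
  have hI2 : IntegrableOn (fun _ : Fin 2 → ℝ => w (cab F₀)) Ω :=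
    integrableOn_const hfin.ne
  rw [hG, integral_sub hI1 hI2, setIntegral_const] at hpos
  simp only [smul_eq_mul, Measure.real] at hpos
  have : w (cab F₀) * (volume Ω).toReal ≤ ∫ x in Ω, w (T F₀ (fderiv ℝ ϑ x)) := by
    linarith [mul_comm (w (cab F₀)) (volume Ω).toReal]
  exact this

end Pool.Agent.Q63.Mor
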