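import Pool.Agent.Q63.Mor.Calc
import Pool.Agent.Q63.Mor.Om
import Pool.Agent.W22.HM.Iso

/-!
# The theorem on matrices
-/

set_option autoImplicit false

namespace Pool.Agent.Q63.Mor

open MeasureTheory Set Filter Topology Metric
open scoped ComplexConjugate
open Pool.Agent.Y332.MD
open Pool.Agent.TH937.ZC
open Pool.Agent.W360.MQ (cab RankOneConvex Quasiconvex)
open Pool.Agent.W22.HM (rot rot_mem normal_form)

/-- the projection of `b` on `[-s, s]` -/
noncomputable def pj (s b : ℝ) : ℝ := max (-s) (min s b)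

/-- quasiconvexity at the points with smaller singular value `b` -/
theorem ql_all {g : ℝ → ℝ → ℝ} (h : ContDiff ℝ 3 (un g)) (sym : ∀ x y, g x y = g y x)
    (odd : ∀ x y, g (-x) (-y) = g x y) (hR : RCc (wi g)) {b : ℝ}
    (H : ∀ s v, 0 < s → |v| ≤ s →
      0 ≤ d1 (d1 g) s (pj s b) + (v - pj s b) * d1 (d1 (d2 g)) s (pj s b))
    {F0 : ℂ × ℂ} (hF : ‖F0.1‖ - ‖F0.2‖ = b) : QL (wi g) F0 := by
  rcases le_total 0 b with hb | hb
  · have D : Hy g b := by
      refine ⟨h, sym, odd, fun v => convex_s hR v, fun s hs => convex_v hR hs, hb, ?_, ?_⟩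
      · intro s v hs hbs hv
        have e : pj s b = b := by
          unfold pj; rw [min_eq_right hbs, max_eq_right (by linarith)]
        have := H s v hs hv
        rwa [e] at this
      · intro t ht htb
        have e : pj t b = t := by
          unfold pj; rw [min_eq_left htb, max_eq_right (by linarith)]
        have := H t (-t) ht (by rw [abs_neg, abs_of_pos ht])
        rw [e] at this
        linarith
    exact D.ql hF
  · set g' : ℝ → ℝ → ℝ := fun s v => g s (-v) with hg'
    have h' : ContDiff ℝ 3 (un g') := by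
      have e : un g' = (un g) ∘ (fun z : ℝ × ℝ => (z.1, -z.2)) := rfl
      rw [e]
      exact h.comp (contDiff_fst.prodMk contDiff_snd.neg)
    have e11 : ∀ s v, d1 (d1 g') s v = d1 (d1 g) s (-v) := fun s v => rfl
    have hR' := RCc_swap hR
    have D : Hy g' (-b) := by
      refine ⟨h', ?_, ?_, fun v => convex_s hR' v, fun s hs => convex_v hR' hs, by linarith,
        ?_, ?_⟩
      · intro x y
        show g x (-y) = g y (-x)
        have := odd y (-x)
        rw [neg_neg] at this
        rw [← this, sym (-y) x]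
      · intro x y
        show g (-x) (- -y) = g x (-y)
        exact odd x (-y)
      · intro s v hs hbs hv
        have e : pj s b = b := by
          unfold pj; rw [min_eq_right (by linarith), max_eq_right (by linarith)]
        have := H s (-v) hs (by rwa [abs_neg])
        rw [e] at this
        rw [e11, d112_neg, neg_neg]
        linarith
      · intro t ht htb
        have e : pj t b = -t := by
          unfold pj; rw [min_eq_right (by linarith), max_eq_left (by linarith)]
        have := H t t ht (by rw [abs_of_pos ht])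
        rw [e] at this
        rw [e11, d112_neg]
        linarith
    have h1 : QL (wi g') (conj F0.2, conj F0.1) := by
      refine D.ql ?_
      simp only [Complex.norm_conj]
      linarith
    have h2 := QL_swap (k := fun x y => g (x + y) (-(x - y))) h1
    have e : (fun F : ℂ × ℂ => g (‖F.2‖ + ‖F.1‖) (-(‖F.2‖ - ‖F.1‖))) = wi g := by
      funext F
      simp only [wi]
      rw [add_comm ‖F.2‖ ‖F.1‖, neg_sub]
    rw [← e]
    exact h2

open scoped Matrix.Norms.L2Operator in
theorem main (W : Matrix (Fin 2) (Fin 2) ℝ → ℝ)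
    (hinv : ∀ R ∈ Matrix.specialOrthogonalGroup (Fin 2) ℝ,
      ∀ Q ∈ Matrix.specialOrthogonalGroup (Fin 2) ℝ, ∀ A, W (R * A * Q) = W A)
    (h : ContDiff ℝ 3 (un (fun x y => W !![x, 0; 0, y])))
    (hR : RankOneConvex W) (F₀ : Matrix (Fin 2) (Fin 2) ℝ)
    (H : ∀ s v, 0 < s → |v| ≤ s →
      0 ≤ d1 (d1 (fun x y => W !![x, 0; 0, y])) s (pj s (F₀.det / ‖F₀‖))
        + (v - pj s (F₀.det / ‖F₀‖))
          * d1 (d1 (d2 (fun x y => W !![x, 0; 0, y]))) s (pj s (F₀.det / ‖F₀‖)))
    (Ω : Set (Fin 2 → ℝ)) (hΩ : IsOpen Ω) (hΩb : Bornology.IsBounded Ω)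
    (ϑ : (Fin 2 → ℝ) → (Fin 2 → ℝ)) (hϑ : ∃ K, LipschitzWith K ϑ) (h0 : ∀ x, x ∉ Ω → ϑ x = 0) :
    W F₀ * (MeasureTheory.volume Ω).toReal ≤
        ∫ x in Ω, W (F₀ + LinearMap.toMatrix'
          ((fderiv ℝ ϑ x : (Fin 2 → ℝ) →L[ℝ] (Fin 2 → ℝ)) :
            (Fin 2 → ℝ) →ₗ[ℝ] (Fin 2 → ℝ))) := by
  set g : ℝ → ℝ → ℝ := fun x y => W !![x, 0; 0, y] with hg
  have hW : W = fun A => wi g (cab A) := by
    funext A
    obtain ⟨a, b, hab⟩ := normal_form A
    have h1 : W A = W !![‖(cab A).1‖ + ‖(cab A).2‖, 0; 0, ‖(cab A).1‖ - ‖(cab A).2‖] := by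
      rw [← hab, hinv _ (rot_mem a) _ (rot_mem b)]
    exact h1
  have sym : ∀ x y, g x y = g y x := by
    intro x y
    have h1 := hinv (rot (Real.pi / 2)) (rot_mem _) (rot (-(Real.pi / 2))) (rot_mem _)
      !![y, 0; 0, x]
    have e : rot (Real.pi / 2) * !![y, 0; 0, x] * rot (-(Real.pi / 2)) = !![x, 0; 0, y] := by
      ext i j
      fin_cases i <;> fin_cases j <;> simp [rot]
    rw [e] at h1
    exact h1
  have odd : ∀ x y, g (-x) (-y) = g x y := by
    intro x y
    have h1 := hinv (rot Real.pi) (rot_mem _) (rot 0) (rot_mem _) !![x, 0; 0, y]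
    have e : rot Real.pi * !![x, 0; 0, y] * rot 0 = !![-x, 0; 0, -y] := by
      ext i j
      fin_cases i <;> fin_cases j <;> simp [rot]
    rw [e] at h1
    exact h1
  have hR' : RCc (wi g) := by
    refine RCc_of ?_
    rw [← hW]; exact hR
  obtain ⟨_, hv⟩ := Pool.Agent.TH937.FF4.nv_eq F₀
  have hq : QL (wi g) (cab F₀) := by
    refine ql_all h sym odd hR' (b := ‖(cab F₀).1‖ - ‖(cab F₀).2‖) ?_ rfl
    rw [← hv]
    exact H
  have := QL_om_at (cont_wi h.continuous) F₀ hq Ω hΩ hΩb ϑ hϑ h0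
  rw [hW]
  exact this

end Pool.Agent.Q63.Mor
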